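import Mathlib

namespace Pool.Agent.Results.MP_8926dc_co.TwoEdges

open SimpleGraph

/-- `f_j(s,t) = C(s,j) + C(t,j-1)`. -/
def f (j s t : ℕ) : ℕ := s.choose j + t.choose (j - 1)

def G : SimpleGraph (Fin 8) where
  Adj a b := a ≠ b ∧ ¬ (a.val < 4 ∧ a.val / 2 = b.val / 2)
  symm := ⟨by decide⟩
  loopless := ⟨by decide⟩

instance : DecidableRel G.Adj := fun a b =>
  inferInstanceAs (Decidable (a ≠ b ∧ ¬ (a.val < 4 ∧ a.val / 2 = b.val / 2)))

theorem result :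
    ∃ (p r s t n : ℕ) (H : SimpleGraph (Fin n)), 3 ≤ p ∧ p < r ∧ r ≤ s ∧ p - 2 ≤ t ∧ t < s ∧
      (H.cliqueSet p).ncard ≤ f p s (t + 1) - 1 ∧ f r s t < (H.cliqueSet r).ncard := by
  refine ⟨3, 4, 7, 4, 8, G, by norm_num, by norm_num, by norm_num, by norm_num, by norm_num,
    ?_, ?_⟩
  · rw [← coe_cliqueFinset, Set.ncard_coe_finset]
    decide +kernel
  · rw [← coe_cliqueFinset, Set.ncard_coe_finset]
    decide +kernel

end Pool.Agent.Results.MP_8926dc_co.TwoEdges
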